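import Mathlib

/-!
# Phase transitions and transition sets of infinite generating sets of `ℤ × ℤ/2ℤ`
-/

set_option autoImplicit false

open Pointwise Set

namespace Pool.Agent.Results.MP_a61939_al.TransitionSets

/-- The group `G = ℤ × ℤ/2ℤ`. -/
abbrev G : Type := ℤ × ZMod 2

/-- The set of all sums of `n` elements of `B`. -/
def nSum : ℕ → Set G → Set G
  | 0, _ => {0}
  | n + 1, B => B + nSum n B

/-- The sphere `S_A(r)`: the elements which are sums of `r` but not of fewer elements of
`A ∪ (-A)`. -/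
def sphere (A : Set G) (r : ℕ) : Set G :=
  {x | x ∈ nSum r (A ∪ -A) ∧ ∀ r' < r, x ∉ nSum r' (A ∪ -A)}

/-- The set `A` is an infinite generating set of `G` for which `r` is the largest integer with
`S_A(r) ≠ ∅`, and `S = S_A(r)`. In other words, the phase transition of `A` is `(r, |S|)` and its
transition set is `S`. -/
structure HasTransition (A : Set G) (r : ℕ) (S : Set G) : Prop where
  infinite : A.Infinite
  generates : ∀ x, ∃ n, x ∈ nSum n (A ∪ -A)
  eq : sphere A r = S
  nonempty : S.Nonempty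
  last : ∀ r' > r, sphere A r' = ∅

/-! ### Sums -/

theorem nSum_mono {B B' : Set G} (h : B ⊆ B') (n : ℕ) : nSum n B ⊆ nSum n B' := by
  induction n with
  | zero => exact subset_rfl
  | succ n ih => exact Set.add_subset_add h ih

theorem nSum_le {B : Set G} (h0 : 0 ∈ B) {m n : ℕ} (h : m ≤ n) : nSum m B ⊆ nSum n B := by
  induction n, h using Nat.le_induction with
  | base => exact subset_rfl
  | succ n _ ih => exact ih.trans fun x hx => ⟨0, h0, x, hx, zero_add x⟩

theorem nSum_one (B : Set G) : nSum 1 B = B := by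
  show B + {0} = B
  simp

theorem nSum_add {B : Set G} {m n : ℕ} {x y : G} (hx : x ∈ nSum m B) (hy : y ∈ nSum n B) :
    x + y ∈ nSum (m + n) B := by
  induction m generalizing x with
  | zero =>
    have : x = 0 := hx
    rw [this, zero_add, zero_add]
    exact hy
  | succ m ih =>
    obtain ⟨b, hb, z, hz, rfl⟩ := hx
    rw [show m + 1 + n = (m + n) + 1 by ring]
    exact ⟨b, hb, z + y, ih hz, (add_assoc _ _ _).symm⟩

theorem nSum_succ' (n : ℕ) (B : Set G) : nSum (n + 1) B = nSum n B + B := by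
  show B + nSum n B = nSum n B + B
  exact add_comm _ _

theorem nSum_neg {B : Set G} (hB : ∀ b ∈ B, -b ∈ B) (n : ℕ) {x : G} (hx : x ∈ nSum n B) :
    -x ∈ nSum n B := by
  induction n generalizing x with
  | zero =>
    have : x = 0 := hx
    rw [this, neg_zero]
    rfl
  | succ n ih =>
    obtain ⟨b, hb, z, hz, rfl⟩ := hx
    exact ⟨-b, hB b hb, -z, ih hz, by
      show -b + -z = -(b + z)
      abel⟩

theorem nSum_finite {B : Set G} (hB : B.Finite) (n : ℕ) : (nSum n B).Finite := by
  induction n with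
  | zero => exact Set.finite_singleton 0
  | succ n ih => exact hB.add ih

theorem sym_union (A : Set G) : ∀ b ∈ A ∪ -A, -b ∈ A ∪ -A := by
  rintro b (hb | hb)
  · exact Or.inr (by rw [Set.mem_neg, neg_neg]; exact hb)
  · exact Or.inl hb

/-- Adding `0` to the set does not change the lengths. -/
theorem nSum_insert (B : Set G) (n : ℕ) {x : G} :
    x ∈ nSum n (insert 0 B) ↔ ∃ m ≤ n, x ∈ nSum m B := by
  constructor
  · intro hx
    induction n generalizing x with
    | zero => exact ⟨0, le_rfl, hx⟩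
    | succ n ih =>
      obtain ⟨b, hb, z, hz, rfl⟩ := hx
      obtain ⟨m, hm, hzm⟩ := ih hz
      rcases hb with rfl | hb
      · exact ⟨m, by omega, by simpa using hzm⟩
      · exact ⟨m + 1, by omega, b, hb, z, hzm, rfl⟩
  · rintro ⟨m, hm, hx⟩
    exact nSum_le (Set.mem_insert _ _) hm (nSum_mono (Set.subset_insert _ _) m hx)

/-! ### The transition sets for a given `r` -/

theorem infinite_univ_G : (Set.univ : Set G).Infinite := Set.infinite_univ

/-- Each element has a minimal length. -/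
theorem exists_sphere {A : Set G} (hg : ∀ x, ∃ n, x ∈ nSum n (A ∪ -A)) (x : G) :
    ∃ n, x ∈ sphere A n := by
  classical
  exact ⟨Nat.find (hg x), Nat.find_spec (hg x), fun m hm => Nat.find_min (hg x) hm⟩

theorem HasTransition.le {A : Set G} {r : ℕ} {S : Set G} (h : HasTransition A r S) (x : G) :
    ∃ n ≤ r, x ∈ sphere A n := by
  obtain ⟨n, hn⟩ := exists_sphere h.generates x
  refine ⟨n, ?_, hn⟩
  by_contra hcon
  push Not at hcon
  rw [h.last n hcon] at hn
  exact hn

theorem HasTransition.ne_zero {A : Set G} {r : ℕ} {S : Set G} (h : HasTransition A r S) :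
    r ≠ 0 := by
  rintro rfl
  obtain ⟨n, hn, hx⟩ := h.le (1, 0)
  obtain rfl : n = 0 := by omega
  have h1 : ((1, 0) : G) = 0 := hx.1
  exact absurd (congrArg Prod.fst h1) (by norm_num)

theorem zero_notMem_sphere {A : Set G} {r : ℕ} (hr : r ≠ 0) : (0 : G) ∉ sphere A r :=
  fun h => h.2 0 (Nat.pos_of_ne_zero hr) rfl

theorem HasTransition.zero_notMem {A : Set G} {r : ℕ} {S : Set G} (h : HasTransition A r S) :
    (0 : G) ∉ S := h.eq ▸ zero_notMem_sphere h.ne_zero

theorem neg_mem_sphere {A : Set G} {r : ℕ} {x : G} (hx : x ∈ sphere A r) : -x ∈ sphere A r := by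
  refine ⟨nSum_neg (sym_union A) r hx.1, fun r' hr' h => hx.2 r' hr' ?_⟩
  have := nSum_neg (sym_union A) r' h
  rwa [neg_neg] at this

theorem HasTransition.neg_eq {A : Set G} {r : ℕ} {S : Set G} (h : HasTransition A r S) :
    -S = S := by
  ext x
  rw [Set.mem_neg, ← h.eq]
  constructor
  · intro hx
    have := neg_mem_sphere hx
    rwa [neg_neg] at this
  · exact neg_mem_sphere

theorem transition_one (S : Set G) : (∃ A, HasTransition A 1 S) ↔ S = {0}ᶜ := by
  constructor
  · rintro ⟨A, h⟩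
    ext x
    constructor
    · intro hx hx0
      exact h.zero_notMem (hx0 ▸ hx)
    · intro hx
      obtain ⟨n, hn, hxn⟩ := h.le x
      have : n ≠ 0 := by
        rintro rfl
        exact hx hxn.1
      obtain rfl : n = 1 := by omega
      exact h.eq ▸ hxn
  · rintro rfl
    have h1 : ∀ x : G, x ∈ nSum 1 (univ ∪ -univ : Set G) := by
      intro x
      rw [nSum_one]
      exact Or.inl trivial
    refine ⟨univ, infinite_univ_G, fun x => ⟨1, h1 x⟩, ?_, ⟨(1, 0), ?_⟩, ?_⟩
    · ext x
      constructor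
      · rintro ⟨-, h⟩ hx
        exact h 0 one_pos hx
      · intro hx
        refine ⟨h1 x, fun r' hr' h => ?_⟩
        obtain rfl : r' = 0 := by omega
        exact hx h
    · intro h
      exact absurd (congrArg Prod.fst (show ((1, 0) : G) = 0 from h)) (by norm_num)
    · intro r' hr'
      exact Set.eq_empty_iff_forall_notMem.2 fun x hx => hx.2 1 hr' (h1 x)

/-- The transition sets for `r ≥ 2`. -/
theorem transition_iff (r : ℕ) (_hr : 1 ≤ r) (S : Set G) : (∃ A, HasTransition A (r + 1) S) ↔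
    S.Nonempty ∧ ∃ B : Set G, 0 ∈ B ∧ -B = B ∧ nSum r B = Sᶜ ∧ Sᶜ + B = univ := by
  constructor
  · rintro ⟨A, h⟩
    refine ⟨h.nonempty, insert 0 (A ∪ -A), Set.mem_insert _ _, ?_, ?_, ?_⟩
    · ext x
      rw [Set.mem_neg]
      constructor
      · rintro (hx | hx)
        · exact Or.inl (neg_eq_zero.1 hx)
        · have := sym_union A _ hx
          rw [neg_neg] at this
          exact Or.inr this
      · rintro (hx | hx)
        · exact Or.inl (neg_eq_zero.2 hx)
        · exact Or.inr (sym_union A _ hx)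
    · ext x
      rw [nSum_insert]
      constructor
      · rintro ⟨m, hm, hx⟩ hxS
        rw [← h.eq] at hxS
        exact hxS.2 m (by omega) hx
      · intro hx
        obtain ⟨n, hn, hxn⟩ := h.le x
        have : n ≠ r + 1 := by
          rintro rfl
          exact hx (h.eq ▸ hxn)
        exact ⟨n, by omega, hxn.1⟩
    · have h1 : nSum r (insert 0 (A ∪ -A)) = Sᶜ := by
        ext x
        rw [nSum_insert]
        constructor
        · rintro ⟨m, hm, hx⟩ hxS
          rw [← h.eq] at hxS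
          exact hxS.2 m (by omega) hx
        · intro hx
          obtain ⟨n, hn, hxn⟩ := h.le x
          have : n ≠ r + 1 := by
            rintro rfl
            exact hx (h.eq ▸ hxn)
          exact ⟨n, by omega, hxn.1⟩
      rw [← h1, ← nSum_succ']
      refine eq_univ_of_forall fun x => ?_
      obtain ⟨n, hn, hxn⟩ := h.le x
      exact (nSum_insert _ _).2 ⟨n, hn, hxn.1⟩
  · rintro ⟨hS, B, hB0, hBs, hBr, hBu⟩
    have hBB : B ∪ -B = B := by rw [hBs, Set.union_self]
    have hall : ∀ x, x ∈ nSum (r + 1) B := by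
      intro x
      rw [nSum_succ', hBr, hBu]
      trivial
    refine ⟨B, ?_, fun x => ⟨r + 1, by rw [hBB]; exact hall x⟩, ?_, hS, ?_⟩
    · intro hfin
      refine infinite_univ_G ((nSum_finite hfin (r + 1)).subset fun x _ => hall x)
    · ext x
      unfold sphere
      rw [hBB]
      constructor
      · rintro ⟨-, h⟩
        have h1 := h r (Nat.lt_succ_self r)
        rw [hBr] at h1
        by_contra hcon
        exact h1 hcon
      · intro hx
        refine ⟨hall x, fun r' hr' h => ?_⟩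
        have h1 := nSum_le hB0 (show r' ≤ r by omega) h
        rw [hBr] at h1
        exact h1 hx
    · intro r' hr'
      refine Set.eq_empty_iff_forall_notMem.2 fun x hx => hx.2 (r + 1) hr' ?_
      rw [hBB]
      exact hall x

/-! ### Finite transition sets -/

section Greedy

variable (S : Set G) (h : ℕ)

/-- The condition on the finite sets in the construction. -/
def Good (B : Finset G) : Prop :=
  (0 : G) ∈ B ∧ (∀ b ∈ B, -b ∈ B) ∧ ∀ x ∈ nSum h (B : Set G), x ∉ S

theorem bound_nSum {B : Set G} {β : ℤ} (hβ : ∀ b ∈ B, |b.1| ≤ β) (m : ℕ) {x : G}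
    (hx : x ∈ nSum m B) : |x.1| ≤ m * β := by
  induction m generalizing x with
  | zero =>
    have : x = 0 := hx
    rw [this]
    simp
  | succ m ih =>
    obtain ⟨b, hb, z, hz, rfl⟩ := hx
    have h1 := hβ b hb
    have h2 := ih hz
    have h3 : |(b + z : G).1| ≤ |b.1| + |z.1| := abs_add_le _ _
    push_cast
    linarith

theorem exists_bound (T : Set G) (hT : T.Finite) : ∃ β : ℤ, 0 ≤ β ∧ ∀ b ∈ T, |b.1| ≤ β := by
  obtain ⟨M, hM⟩ := (hT.image fun b : G => |b.1|).bddAbove
  refine ⟨max M 0, le_max_right _ _, fun b hb => ?_⟩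
  exact (hM ⟨b, hb, rfl⟩).trans (le_max_left _ _)

theorem decompose (B : Set G) (y z : G) (n : ℕ) {w : G}
    (hw : w ∈ nSum n (B ∪ {y, -y, z, -z})) :
    ∃ (c d : ℤ) (m : ℕ) (b : G), b ∈ nSum m B ∧ |c| + |d| + m ≤ n ∧ w = c • y + d • z + b := by
  induction n generalizing w with
  | zero =>
    have : w = 0 := hw
    exact ⟨0, 0, 0, 0, rfl, by simp, by simp [this]⟩
  | succ n ih =>
    obtain ⟨a, ha, w', hw', rfl⟩ := hw
    obtain ⟨c, d, m, b, hb, hm, rfl⟩ := ih hw'
    rcases ha with ha | ha | ha | ha | ha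
    · refine ⟨c, d, m + 1, a + b, ⟨a, ha, b, hb, rfl⟩, by push_cast; linarith, ?_⟩
      show a + (c • y + d • z + b) = _
      abel
    · refine ⟨c + 1, d, m, b, hb, ?_, ?_⟩
      · have : |c + 1| ≤ |c| + 1 := (abs_add_le c 1).trans (by simp)
        push_cast
        linarith
      · show a + (c • y + d • z + b) = _
        rw [ha]
        rw [add_smul, one_smul]
        abel
    · refine ⟨c - 1, d, m, b, hb, ?_, ?_⟩
      · have : |c - 1| ≤ |c| + 1 := (abs_sub c 1).trans (by simp)
        push_cast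
        linarith
      · show a + (c • y + d • z + b) = _
        rw [ha]
        rw [sub_smul, one_smul]
        abel
    · refine ⟨c, d + 1, m, b, hb, ?_, ?_⟩
      · have : |d + 1| ≤ |d| + 1 := (abs_add_le d 1).trans (by simp)
        push_cast
        linarith
      · show a + (c • y + d • z + b) = _
        rw [ha]
        rw [add_smul, one_smul]
        abel
    · refine ⟨c, d - 1, m, b, hb, ?_, ?_⟩
      · have : |d - 1| ≤ |d| + 1 := (abs_sub d 1).trans (by simp)
        push_cast
        linarith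
      · show a + (c • y + d • z + b) = _
        rw [ha]
        rw [sub_smul, one_smul]
        abel

theorem step (hSf : S.Finite) (hSs : -S = S) (hh : 1 ≤ h) (B : Finset G) (hB : Good S h B) (x : G) :
    ∃ B' : Finset G, Good S h B' ∧ B ⊆ B' ∧ (x ∉ S → x ∈ nSum h (B' : Set G)) := by
  classical
  by_cases hx : x ∈ S
  · exact ⟨B, hB, subset_rfl, fun h => (h hx).elim⟩
  obtain ⟨β, hβ0, hβ⟩ := exists_bound (B : Set G) B.finite_toSet
  obtain ⟨σ, hσ0, hσ⟩ := exists_bound S hSf
  set Y : ℤ := σ + h * |x.1| + h * β + 1 with hY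
  set y : G := (Y, 0) with hy
  set z : G := x - ((h : ℤ) - 1) • y with hz
  have hsum : ((h : ℤ) - 1) • y + z = x := by rw [hz]; abel
  refine ⟨B ∪ {y, -y, z, -z}, ⟨Finset.mem_union_left _ hB.1, ?_, ?_⟩, Finset.subset_union_left, ?_⟩
  · intro b hb
    simp only [Finset.mem_union, Finset.mem_insert, Finset.mem_singleton] at hb ⊢
    rcases hb with hb | hb | hb | hb | hb
    · exact Or.inl (hB.2.1 b hb)
    · rw [hb]; simp
    · rw [hb]; simp
    · rw [hb]; simp
    · rw [hb]; simp
  · intro w hw hwS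
    have hcoe : ((B ∪ {y, -y, z, -z} : Finset G) : Set G) = (B : Set G) ∪ {y, -y, z, -z} := by
      push_cast
      rfl
    rw [hcoe] at hw
    obtain ⟨c, d, m, b, hb, hm, hweq⟩ := decompose (B : Set G) y z h hw
    have hb1 := bound_nSum hβ m hb
    have hw1 := hσ w hwS
    set e : ℤ := c - ((h : ℤ) - 1) * d with he
    have hwe : w = e • y + d • x + b := by
      rw [hweq, ← hsum, he, sub_smul, smul_add, mul_comm, mul_smul]
      abel
    have hfst : w.1 = e * Y + d * x.1 + b.1 := by
      rw [hwe]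
      simp [hy]
    have hm0 : (0 : ℤ) ≤ m := Int.natCast_nonneg m
    have hc0 := abs_nonneg c
    have hd0 := abs_nonneg d
    have hmh : (m : ℤ) ≤ h := by linarith
    have hdh : |d| ≤ h := by linarith
    have hYpos : 0 < Y := by
      have : 0 ≤ (h : ℤ) * |x.1| := by positivity
      have : 0 ≤ (h : ℤ) * β := by positivity
      rw [hY]
      linarith
    have he0 : e = 0 := by
      by_contra hne
      have h1 : 1 ≤ |e| := Int.one_le_abs hne
      have h2 : Y ≤ |e * Y| := by
        rw [abs_mul, abs_of_pos hYpos]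
        nlinarith
      have h3 : e * Y = w.1 - d * x.1 - b.1 := by rw [hfst]; ring
      have h4 : |e * Y| ≤ |w.1| + |d * x.1| + |b.1| := by
        rw [h3]
        exact (abs_sub _ _).trans (add_le_add (abs_sub _ _) le_rfl)
      have h5 : |d * x.1| ≤ h * |x.1| := by
        rw [abs_mul]
        exact mul_le_mul_of_nonneg_right hdh (abs_nonneg _)
      have h6 : (m : ℤ) * β ≤ h * β := mul_le_mul_of_nonneg_right hmh hβ0
      rw [hY] at h2
      linarith
    have hc : c = ((h : ℤ) - 1) * d := by linarith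
    have habs : |c| = ((h : ℤ) - 1) * |d| := by
      rw [hc, abs_mul, abs_of_nonneg (by
        have : (1 : ℤ) ≤ h := by exact_mod_cast hh
        linarith)]
    rw [habs] at hm
    by_cases hd : d = 0
    · have hw' : w = b := by rw [hwe, he0, hd]; simp
      have hmh' : m ≤ h := by exact_mod_cast hmh
      exact hB.2.2 b (nSum_le hB.1 hmh' hb) (hw' ▸ hwS)
    · have h1 : 1 ≤ |d| := Int.one_le_abs hd
      have hh' : (1 : ℤ) ≤ h := by exact_mod_cast hh
      have h2 : (h : ℤ) * |d| + m ≤ h := by linarith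
      have h3 : |d| = 1 := by nlinarith
      have h4 : m = 0 := by
        rw [h3] at h2
        have : (m : ℤ) ≤ 0 := by linarith
        exact_mod_cast le_antisymm this hm0
      subst h4
      have hb0 : b = 0 := hb
      rw [he0, hb0, zero_smul, zero_add, add_zero] at hwe
      rcases (abs_eq (by norm_num)).1 h3 with h5 | h5
      · rw [h5, one_smul] at hwe
        exact hx (hwe ▸ hwS)
      · rw [h5, neg_one_smul] at hwe
        rw [hwe] at hwS
        apply hx
        rw [← hSs]
        exact hwS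
  · intro _
    obtain ⟨k, rfl⟩ : ∃ k, h = k + 1 := ⟨h - 1, by omega⟩
    have hyB : y ∈ ((B ∪ {y, -y, z, -z} : Finset G) : Set G) := by simp
    have hzB : z ∈ ((B ∪ {y, -y, z, -z} : Finset G) : Set G) := by simp
    have h1 : ∀ n : ℕ, (n : ℤ) • y ∈ nSum n ((B ∪ {y, -y, z, -z} : Finset G) : Set G) := by
      intro n
      induction n with
      | zero =>
        show _ = _
        simp
      | succ n ih =>
        refine ⟨y, hyB, _, ih, ?_⟩
        show y + (n : ℤ) • y = _
        push_cast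
        rw [add_smul, one_smul, add_comm]
    rw [← hsum]
    have h2 : ((k + 1 : ℕ) : ℤ) - 1 = (k : ℤ) := by push_cast; ring
    rw [h2]
    exact nSum_add (h1 k) (by rw [nSum_one]; exact hzB)

theorem exists_B (hSf : S.Finite) (hSs : -S = S) (hS0 : (0 : G) ∉ S) (hh : 1 ≤ h) :
    ∃ B : Set G, 0 ∈ B ∧ -B = B ∧ nSum h B = Sᶜ ∧ Sᶜ + B = univ := by
  classical
  obtain ⟨xs, hxs⟩ := exists_surjective_nat G
  have hgood0 : Good S h {0} := by
    refine ⟨by simp, by simp, fun x hx => ?_⟩
    have : ∀ n, ∀ x ∈ nSum n (({0} : Finset G) : Set G), x = 0 := by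
      intro n
      induction n with
      | zero => exact fun x hx => hx
      | succ n ih =>
        rintro _ ⟨a, ha, b, hb, rfl⟩
        rw [ih b hb]
        simpa using ha
    rw [this h x hx]
    exact hS0
  choose nxt hn1 hn2 hn3 using fun (B : {B : Finset G // Good S h B}) (x : G) =>
    step S h hSf hSs hh B.1 B.2 x
  let f : ℕ → {B : Finset G // Good S h B} := fun n =>
    Nat.rec ⟨{0}, hgood0⟩ (fun k B => ⟨nxt B (xs k), hn1 B (xs k)⟩) n
  have hf1 : ∀ n, (f n).1 ⊆ (f (n + 1)).1 := fun n => hn2 (f n) (xs n)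
  have hf2 : ∀ n, xs n ∉ S → xs n ∈ nSum h ((f (n + 1)).1 : Set G) := fun n => hn3 (f n) (xs n)
  have hmono : ∀ n m, n ≤ m → (f n).1 ⊆ (f m).1 := by
    intro n m hnm
    induction m, hnm using Nat.le_induction with
    | base => exact subset_rfl
    | succ m _ ih => exact ih.trans (hf1 m)
  set B : Set G := {b | ∃ n, b ∈ (f n).1} with hBdef
  have hsub : ∀ n, ((f n).1 : Set G) ⊆ B := fun n b hb => ⟨n, hb⟩
  have hstage : ∀ k, ∀ x ∈ nSum k B, ∃ n, x ∈ nSum k ((f n).1 : Set G) := by
    intro k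
    induction k with
    | zero => exact fun x hx => ⟨0, hx⟩
    | succ k ih =>
      rintro _ ⟨a, ⟨n, hn⟩, b, hb, rfl⟩
      obtain ⟨m, hm⟩ := ih b hb
      refine ⟨max n m, a, hmono n _ (le_max_left _ _) hn, b, ?_, rfl⟩
      exact nSum_mono (fun b hb => hmono m _ (le_max_right _ _) hb) k hm
  have hB0 : (0 : G) ∈ B := ⟨0, (f 0).2.1⟩
  have hBs : -B = B := by
    ext x
    rw [Set.mem_neg]
    constructor
    · rintro ⟨n, hn⟩
      have := (f n).2.2.1 _ hn
      rw [neg_neg] at this
      exact ⟨n, this⟩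
    · rintro ⟨n, hn⟩
      exact ⟨n, (f n).2.2.1 _ hn⟩
  have hBh : nSum h B = Sᶜ := by
    ext x
    constructor
    · intro hx
      obtain ⟨n, hn⟩ := hstage h x hx
      exact (f n).2.2.2 x hn
    · intro hx
      obtain ⟨n, rfl⟩ := hxs x
      exact nSum_mono (hsub (n + 1)) h (hf2 n hx)
  have hBinf : B.Infinite := by
    intro hfin
    have h1 := nSum_finite hfin h
    rw [hBh] at h1
    exact infinite_univ_G ((hSf.union h1).subset fun x _ => by
      by_cases hx : x ∈ S
      · exact Or.inl hx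
      · exact Or.inr hx)
  refine ⟨B, hB0, hBs, hBh, eq_univ_of_forall fun g => ?_⟩
  have hfin2 : {b : G | g - b ∈ S}.Finite := by
    refine (hSf.image fun s => g - s).subset ?_
    intro b hb
    exact ⟨g - b, hb, by
      show g - (g - b) = b
      abel⟩
  obtain ⟨b, hb, hbS⟩ := hBinf.exists_notMem_finite hfin2
  exact ⟨g - b, hbS, b, hb, by
    show g - b + b = g
    abel⟩

end Greedy

theorem transition_finite (S : Set G) (hSf : S.Finite) (r : ℕ) : (∃ A, HasTransition A r S) ↔
    2 ≤ r ∧ S.Nonempty ∧ -S = S ∧ 0 ∉ S := by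
  constructor
  · rintro ⟨A, h⟩
    refine ⟨?_, h.nonempty, h.neg_eq, h.zero_notMem⟩
    have h0 := h.ne_zero
    have h1 : r ≠ 1 := by
      rintro rfl
      have : S = {0}ᶜ := (transition_one S).1 ⟨A, h⟩
      rw [this] at hSf
      exact infinite_univ_G ((hSf.union (Set.finite_singleton (0 : G))).subset fun x _ => by
        by_cases hx : x = 0
        · exact Or.inr hx
        · exact Or.inl hx)
    omega
  · rintro ⟨hr, hne, hs, h0⟩
    obtain ⟨k, rfl⟩ : ∃ k, r = k + 1 := ⟨r - 1, by omega⟩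
    exact (transition_iff k (by omega) S).2 ⟨hne, exists_B S k hSf hs h0 (by omega)⟩

/-! ### An infinite transition set for each `r ≥ 2` -/

/-- The set `mℤ × 0` together with `± (1, 0)`, `(0, 1)` and `0`, for `m = 2 k + 1`. -/
def Bk (k : ℕ) : Set G :=
  {x | (∃ c : ℤ, x = ((2 * k + 1) * c, 0)) ∨ x = (1, 0) ∨ x = (-1, 0) ∨ x = (0, 1)}

theorem Bk_zero (k : ℕ) : (0 : G) ∈ Bk k := Or.inl ⟨0, by rw [mul_zero]; rfl⟩

theorem Bk_neg (k : ℕ) : -Bk k = Bk k := by
  have h : ∀ x ∈ Bk k, -x ∈ Bk k := by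
    rintro x (⟨c, rfl⟩ | rfl | rfl | rfl)
    · exact Or.inl ⟨-c, by simp⟩
    · exact Or.inr (Or.inr (Or.inl (by simp)))
    · exact Or.inr (Or.inl (by simp))
    · refine Or.inr (Or.inr (Or.inr ?_))
      decide
  ext x
  rw [Set.mem_neg]
  constructor
  · intro hx
    have := h _ hx
    rwa [neg_neg] at this
  · exact h x

theorem Bk_invariant (k n : ℕ) {x : G} (hx : x ∈ nSum n (Bk k)) :
    ∃ (p t e : ℕ) (a c : ℤ), p + t + e ≤ n ∧ |a| ≤ p ∧ (t = 0 → c = 0) ∧ (e = 0 → x.2 = 0) ∧
      x.1 = a + (2 * k + 1) * c := by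
  induction n generalizing x with
  | zero =>
    have : x = 0 := hx
    exact ⟨0, 0, 0, 0, 0, le_rfl, by simp, fun _ => rfl, fun _ => by rw [this]; rfl, by simp [this]⟩
  | succ n ih =>
    obtain ⟨b, hb, z, hz, rfl⟩ := hx
    obtain ⟨p, t, e, a, c, h1, h2, h3, h4, h5⟩ := ih hz
    rcases hb with ⟨c', rfl⟩ | rfl | rfl | rfl
    · refine ⟨p, t + 1, e, a, c + c', by omega, h2, by omega, fun he => ?_, ?_⟩
      · show (0 : ZMod 2) + z.2 = 0
        rw [h4 he, add_zero]
      · show (2 * k + 1) * c' + z.1 = _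
        rw [h5]
        ring
    · refine ⟨p + 1, t, e, a + 1, c, by omega, ?_, h3, fun he => ?_, ?_⟩
      · have := (abs_add_le a 1).trans (add_le_add h2 (by simp : |(1 : ℤ)| ≤ 1))
        push_cast
        linarith
      · show (0 : ZMod 2) + z.2 = 0
        rw [h4 he, add_zero]
      · show 1 + z.1 = _
        rw [h5]
        ring
    · refine ⟨p + 1, t, e, a - 1, c, by omega, ?_, h3, fun he => ?_, ?_⟩
      · have := (abs_sub a 1).trans (add_le_add h2 (by simp : |(1 : ℤ)| ≤ 1))
        push_cast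
        linarith
      · show (0 : ZMod 2) + z.2 = 0
        rw [h4 he, add_zero]
      · show -1 + z.1 = _
        rw [h5]
        ring
    · refine ⟨p, t, e + 1, a, c, by omega, h2, h3, fun he => by omega, ?_⟩
      show 0 + z.1 = _
      rw [h5]
      ring

theorem Bk_int (k : ℕ) (j : ℤ) (n : ℕ) (hj : |j| ≤ n) : ((j, 0) : G) ∈ nSum n (Bk k) := by
  induction n generalizing j with
  | zero =>
    have : j = 0 := by
      rw [← abs_nonpos_iff]
      exact_mod_cast hj
    rw [this]
    rfl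
  | succ n ih =>
    push_cast at hj
    rcases lt_trichotomy j 0 with h | h | h
    · refine ⟨(-1, 0), Or.inr (Or.inr (Or.inl rfl)), (j + 1, 0), ih _ ?_, ?_⟩
      · rw [abs_of_neg h] at hj
        rw [abs_of_nonpos (by omega)]
        omega
      · show ((-1 + (j + 1), 0 + 0) : G) = (j, 0)
        congr 1
        ring
    · exact ⟨0, Bk_zero k, (j, 0), ih _ (by rw [h]; simp), zero_add _⟩
    · refine ⟨(1, 0), Or.inr (Or.inl rfl), (j - 1, 0), ih _ ?_, ?_⟩
      · rw [abs_of_pos h] at hj
        rw [abs_of_nonneg (by omega)]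
        omega
      · show ((1 + (j - 1), 0 + 0) : G) = (j, 0)
        congr 1
        ring

theorem Bk_all (k : ℕ) (x : G) : x ∈ nSum (k + 1 + 1) (Bk k) := by
  obtain ⟨v, ε⟩ := x
  obtain ⟨j, c, hj, hv⟩ : ∃ j c : ℤ, |j| ≤ k ∧ v = j + (2 * k + 1) * c := by
    refine ⟨(v + k) % (2 * k + 1) - k, (v + k) / (2 * k + 1), ?_, ?_⟩
    · have h1 := Int.emod_nonneg (v + k) (show (2 * (k : ℤ) + 1) ≠ 0 by omega)
      have h2 := Int.emod_lt_of_pos (v + k) (show 0 < (2 * (k : ℤ) + 1) by omega)
      rw [abs_le]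
      constructor <;> omega
    · have := Int.emod_add_mul_ediv (v + k) (2 * k + 1)
      linarith
  have h1 : ((0, ε) : G) ∈ Bk k := by
    have : ε = 0 ∨ ε = 1 := by
      revert ε
      decide
    rcases this with rfl | rfl
    · exact Bk_zero k
    · exact Or.inr (Or.inr (Or.inr rfl))
  refine ⟨(0, ε), h1, (v, 0), ⟨((2 * k + 1) * c, 0), Or.inl ⟨c, rfl⟩, (j, 0), Bk_int k j k hj, ?_⟩, ?_⟩
  · show (((2 * k + 1) * c + j, 0 + 0) : G) = (v, 0)
    rw [hv]
    congr 1
    ring
  · show ((0 + v, ε + 0) : G) = (v, ε)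
    rw [zero_add, add_zero]

theorem Bk_far (k q : ℕ) (hq : 1 ≤ q) :
    (((2 * k + 1) * q + k, 1) : G) ∉ nSum (k + 1) (Bk k) := by
  intro h
  obtain ⟨p, t, e, a, c, h1, h2, h3, h4, h5⟩ := Bk_invariant k (k + 1) h
  have he : e ≠ 0 := by
    intro he
    have h6 : (1 : ZMod 2) = 0 := h4 he
    revert h6
    decide
  have h5' : (2 * (k : ℤ) + 1) * q + k = a + (2 * k + 1) * c := h5
  rw [abs_le] at h2
  have hp : (p : ℤ) ≤ k := by omega
  have hqc : (q : ℤ) = c := by
    have h6 : (2 * (k : ℤ) + 1) * (c - q) = k - a := by linarith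
    have h7 : 0 ≤ (k : ℤ) - a := by omega
    have h8 : (k : ℤ) - a ≤ 2 * k := by omega
    have h9 : c - q < 1 := by
      by_contra hcon
      push Not at hcon
      nlinarith
    have h10 : -1 < c - q := by
      by_contra hcon
      push Not at hcon
      nlinarith
    omega
  rw [hqc] at h5'
  have ha : a = k := by linarith
  have ht : t = 0 := by omega
  have := h3 ht
  omega

theorem transition_infinite (k : ℕ) :
    ∃ (A S : Set G), HasTransition A (k + 1 + 1) S ∧ S.Infinite := by
  set S : Set G := (nSum (k + 1) (Bk k))ᶜ with hS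
  have hinf : S.Infinite := by
    have hinj : Function.Injective fun q : ℕ => (((2 * k + 1) * ((q + 1 : ℕ) : ℤ) + k, 1) : G) := by
      intro q q' h
      have h1 := congrArg Prod.fst h
      simp only at h1
      have h2 : (2 * (k : ℤ) + 1) * ((q + 1 : ℕ) : ℤ) = (2 * (k : ℤ) + 1) * ((q' + 1 : ℕ) : ℤ) := by
        linarith
      have h3 := mul_left_cancel₀ (show (2 * (k : ℤ) + 1) ≠ 0 by omega) h2
      omega
    refine (Set.infinite_range_of_injective hinj).mono ?_
    rintro _ ⟨q, rfl⟩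
    exact Bk_far k (q + 1) (by omega)
  obtain ⟨A, hA⟩ := (transition_iff (k + 1) (by omega) S).2 ⟨hinf.nonempty, Bk k, Bk_zero k,
    Bk_neg k, by rw [hS, compl_compl], by
      rw [hS, compl_compl, ← nSum_succ']
      exact eq_univ_of_forall (Bk_all k)⟩
  exact ⟨A, S, hA, hinf⟩

/-! ### A symmetric set of each size -/

theorem exists_sym (s : ℕ) (hs : 1 ≤ s) :
    ∃ S : Set G, S.Finite ∧ S.encard = s ∧ S.Nonempty ∧ -S = S ∧ (0 : G) ∉ S := by
  classical
  rcases Nat.even_or_odd' s with ⟨m, rfl | rfl⟩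
  · let F : Finset G := ((Finset.Icc (-(m : ℤ)) m).erase 0).image fun k => ((k, 0) : G)
    have hcard : F.card = 2 * m := by
      rw [Finset.card_image_of_injective _ (fun a b h => congrArg Prod.fst h),
        Finset.card_erase_of_mem (by simp), Int.card_Icc]
      omega
    refine ⟨F, F.finite_toSet, ?_, ?_, ?_, ?_⟩
    · rw [Set.encard_coe_eq_coe_finsetCard, hcard]
    · rw [Finset.coe_nonempty, ← Finset.card_pos, hcard]
      omega
    · ext ⟨a, b⟩
      simp only [F, Set.mem_neg, Finset.coe_image, Set.mem_image, Finset.mem_coe, Finset.mem_erase,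
        Finset.mem_Icc, Prod.neg_mk, Prod.mk.injEq]
      constructor
      · rintro ⟨k, ⟨h1, h2, h3⟩, h4, h5⟩
        exact ⟨-k, ⟨by omega, by omega, by omega⟩, by omega, by rw [← neg_neg b, ← h5, neg_zero]⟩
      · rintro ⟨k, ⟨h1, h2, h3⟩, h4, h5⟩
        exact ⟨-k, ⟨by omega, by omega, by omega⟩, by omega, by rw [← h5, neg_zero]⟩
    · simp only [F, Finset.coe_image, Set.mem_image, Finset.mem_coe, Finset.mem_erase,
        Finset.mem_Icc]
      rintro ⟨k, ⟨h1, -⟩, h2⟩
      exact h1 (congrArg Prod.fst h2)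
  · let F : Finset G := (Finset.Icc (-(m : ℤ)) m).image fun k => ((k, 1) : G)
    have hcard : F.card = 2 * m + 1 := by
      rw [Finset.card_image_of_injective _ (fun a b h => congrArg Prod.fst h), Int.card_Icc]
      omega
    refine ⟨F, F.finite_toSet, ?_, ?_, ?_, ?_⟩
    · rw [Set.encard_coe_eq_coe_finsetCard, hcard]
    · rw [Finset.coe_nonempty, ← Finset.card_pos, hcard]
      omega
    · have h11 : (-1 : ZMod 2) = 1 := by decide
      ext ⟨a, b⟩
      simp only [F, Set.mem_neg, Finset.coe_image, Set.mem_image, Finset.mem_coe,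
        Finset.mem_Icc, Prod.neg_mk, Prod.mk.injEq]
      constructor
      · rintro ⟨k, ⟨h2, h3⟩, h4, h5⟩
        exact ⟨-k, ⟨by omega, by omega⟩, by omega, by rw [← neg_neg b, ← h5, h11]⟩
      · rintro ⟨k, ⟨h2, h3⟩, h4, h5⟩
        exact ⟨-k, ⟨by omega, by omega⟩, by omega, by rw [← h5, h11]⟩
    · simp only [F, Finset.coe_image, Set.mem_image, Finset.mem_coe, Finset.mem_Icc]
      rintro ⟨k, -, h2⟩
      have h3 : (1 : ZMod 2) = 0 := congrArg Prod.snd h2
      revert h3
      decide

/-- **Main result.** -/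
theorem result :
    -- (a) the phase transitions
    (∀ (r : ℕ) (s : ℕ∞), (∃ A S, HasTransition A r S ∧ S.encard = s) ↔
      (r = 1 ∧ s = ⊤) ∨ (2 ≤ r ∧ 1 ≤ s)) ∧
    -- (b) the finite transition sets, and the values of `r` for them
    (∀ S : Set G, S.Finite → ∀ r : ℕ, (∃ A, HasTransition A r S) ↔
      2 ≤ r ∧ S.Nonempty ∧ -S = S ∧ 0 ∉ S) ∧
    -- (b) the infinite transition sets
    (∀ S : Set G, S.Infinite → ((∃ A r, HasTransition A r S) ↔
      S = {0}ᶜ ∨ (-S = S ∧ 0 ∉ S ∧ Sᶜ + Sᶜ = univ))) ∧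
    -- (b) the values of `r` for the infinite transition sets: `r = 1`, `r = 2`, and `r ≥ 2`
    (∀ S : Set G, S.Infinite → ((∃ A, HasTransition A 1 S) ↔ S = {0}ᶜ) ∧
      ((∃ A, HasTransition A 2 S) ↔ -S = S ∧ 0 ∉ S ∧ Sᶜ + Sᶜ = univ) ∧
      ∀ r ≥ 2, (∃ A, HasTransition A r S) ↔
        ∃ B : Set G, 0 ∈ B ∧ -B = B ∧ nSum (r - 1) B = Sᶜ ∧ Sᶜ + B = univ) := by
  have htwo : ∀ S : Set G, S.Infinite → ((∃ A, HasTransition A 2 S) ↔
      -S = S ∧ 0 ∉ S ∧ Sᶜ + Sᶜ = univ) := by
    intro S hS
    constructor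
    · rintro ⟨A, h⟩
      obtain ⟨-, B, hB0, hBs, hB1, hBu⟩ := (transition_iff 1 le_rfl S).1 ⟨A, h⟩
      rw [nSum_one] at hB1
      refine ⟨h.neg_eq, h.zero_notMem, ?_⟩
      rw [← hB1]
      rw [← hB1] at hBu
      exact hBu
    · rintro ⟨h1, h2, h3⟩
      refine (transition_iff 1 le_rfl S).2 ⟨hS.nonempty, Sᶜ, h2, ?_, nSum_one _, h3⟩
      rw [Set.compl_neg, h1]
  have hcompl : ({0}ᶜ : Set G).Infinite := (Set.finite_singleton (0 : G)).infinite_compl
  refine ⟨?_, transition_finite, ?_, ?_⟩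
  · intro r s
    constructor
    · rintro ⟨A, S, h, hs⟩
      have h0 := h.ne_zero
      by_cases h1 : r = 1
      · subst h1
        left
        refine ⟨rfl, ?_⟩
        rw [← hs, (transition_one S).1 ⟨A, h⟩]
        exact Set.encard_eq_top_iff.2 hcompl
      · right
        refine ⟨by omega, ?_⟩
        rw [← hs]
        exact Set.one_le_encard_iff_nonempty.2 h.nonempty
    · rintro (⟨rfl, rfl⟩ | ⟨hr, hs⟩)
      · obtain ⟨A, hA⟩ := (transition_one {0}ᶜ).2 rfl
        exact ⟨A, _, hA, Set.encard_eq_top_iff.2 hcompl⟩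
      · rcases eq_or_ne s ⊤ with rfl | hs'
        · obtain ⟨k, rfl⟩ : ∃ k, r = k + 1 + 1 := ⟨r - 2, by omega⟩
          obtain ⟨A, S, hA, hS⟩ := transition_infinite k
          exact ⟨A, S, hA, Set.encard_eq_top_iff.2 hS⟩
        · lift s to ℕ using hs'
          obtain ⟨S, hSf, hSc, hSn, hSs, hS0⟩ := exists_sym s (by exact_mod_cast hs)
          obtain ⟨A, hA⟩ := (transition_finite S hSf r).2 ⟨hr, hSn, hSs, hS0⟩
          exact ⟨A, S, hA, hSc⟩
  · intro S hS
    constructor
    · rintro ⟨A, r, h⟩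
      have h0 := h.ne_zero
      by_cases h1 : r = 1
      · subst h1
        exact Or.inl ((transition_one S).1 ⟨A, h⟩)
      · right
        obtain ⟨k, rfl⟩ : ∃ k, r = k + 1 := ⟨r - 1, by omega⟩
        obtain ⟨-, B, hB0, hBs, hBk, hBu⟩ := (transition_iff k (by omega) S).1 ⟨A, h⟩
        refine ⟨h.neg_eq, h.zero_notMem, eq_univ_of_univ_subset ?_⟩
        rw [← hBu]
        refine Set.add_subset_add subset_rfl ?_
        rw [← hBk]
        have := nSum_le hB0 (show 1 ≤ k by omega)
        rwa [nSum_one] at this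
    · rintro (h | h)
      · obtain ⟨A, hA⟩ := (transition_one S).2 h
        exact ⟨A, 1, hA⟩
      · obtain ⟨A, hA⟩ := (htwo S hS).2 h
        exact ⟨A, 2, hA⟩
  · intro S hS
    refine ⟨transition_one S, htwo S hS, fun r hr => ?_⟩
    obtain ⟨k, rfl⟩ : ∃ k, r = k + 1 := ⟨r - 1, by omega⟩
    rw [transition_iff k (by omega) S, Nat.add_sub_cancel]
    exact ⟨fun h => h.2, fun h => ⟨hS.nonempty, h⟩⟩

end Pool.Agent.Results.MP_a61939_al.TransitionSets
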